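import Pool.Agent.LapEn.Final

/-!
# The maximum Laplacian energy of connected graphs on `n ≥ 20000` vertices

`MP_7a9f08_co`, Q1. For `n ≥ 20000` and `k = ⌊2n/3⌋` the pineapple `PA(n, k+1)` is, up to
isomorphism, the only connected graph of maximum Laplacian energy, and
`M(n) = (2 - 2k/n) k (k+1) - 2 (2k/n - 1) (n - k - 1)`.

Idea. For the spectral projection `P` of the Laplacian on the `k` eigenvalues above `2m/n` the
energy is the sum over ordered adjacent pairs of `D(u,v) - 2k/n`, `D(u,v) = |P(e_u - e_v)|^2`.
* A stability inequality for all projections (vertices are divided according to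
  `P u u ≥ 7/8`, `≤ 1/8` or in between) and the cost of connectivity show that a near maximiser
  has exactly `k + 1` vertices with `P u u ≥ 7/8`, and that passing to a clique on these vertices
  with pendant vertices attached to them does not decrease the sum.
* For a clique on `k + 1` vertices with pendant vertices the eigenspace of the small eigenvalues is
  the graph of a linear map with entries `-ζ ≤ 0`, where `ζ ≥ 0` is a fixed point of a quadratic
  monotone map; this gives the sum of the `k` largest eigenvalues as `k (k + 1) + r - ∑ ζ`, which is
  maximal exactly if all pendant vertices are attached to one vertex.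
* For `2 k < n` the complementary projection and the sharp bound for all graphs are used.
-/

namespace Pool.Agent.Results.MP_7a9f08_co.PineappleLargeN

open LapEn

/-- For `n ≥ 20000` and `k = ⌊2n/3⌋` the pineapple `PA(n, k+1)` is the unique connected graph on
`n` vertices with maximum Laplacian energy. -/
theorem result (n k : ℕ) (hn : 20000 ≤ n) (hk : k = 2 * n / 3) :
    (pineapple n (k + 1)).Connected ∧
    lapEnergy (pineapple n (k + 1)) =
      (2 - 2 * (k : ℝ) / n) * (k * (k + 1)) - 2 * (2 * (k : ℝ) / n - 1) * ((n : ℝ) - k - 1) ∧
    ∀ (G : SimpleGraph (Fin n)) [DecidableRel G.Adj], G.Connected →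
      lapEnergy G ≤ lapEnergy (pineapple n (k + 1)) ∧
      (lapEnergy G = lapEnergy (pineapple n (k + 1)) ↔
        Nonempty (G ≃g pineapple n (k + 1))) := by
  subst hk
  rw [add_comm (2 * n / 3) 1]
  exact main n hn

end Pool.Agent.Results.MP_7a9f08_co.PineappleLargeN
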